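import Pool.Agent.Helper15_SIU.Stmts
import Pool.Agent.Helper15_SIU.Lib2

set_option autoImplicit false

open MeasureTheory Filter Topology Set Metric
open scoped Manifold ContDiff

namespace Pool.Agent.SIU.H20

theorem bump (K1 K2 : Set ℂ) (h1 : IsCompact K1) (h2 : IsCompact K2) (hd : Disjoint K1 K2) :
    ∃ (f : ℂ → ℝ) (δ R : ℝ), 0 < δ ∧ ContDiff ℝ ∞ f ∧ (∀ u, R ≤ ‖u‖ → f u = 0) ∧
      (∀ y ∈ K1, ∀ u, ‖u - y‖ < δ → f u = 1) ∧ (∀ y ∈ K2, ∀ u, ‖u - y‖ < δ → f u = 0) := by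
  obtain ⟨δ, hδ, hdis⟩ := hd.exists_thickenings h1 h2.isClosed
  have hst : Disjoint (thickening δ K1)ᶜ (cthickening (δ / 2) K1) := by
    rw [Set.disjoint_compl_left_iff_subset]
    exact cthickening_subset_thickening' hδ (by linarith) K1
  obtain ⟨f, hf0, hf1, -⟩ := exists_contMDiffMap_zero_one_of_isClosed (n := ⊤) 𝓘(ℝ, ℂ)
    (isOpen_thickening.isClosed_compl) isClosed_cthickening hst
  have hb : Bornology.IsBounded (thickening δ K1) := h1.isBounded.thickening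
  obtain ⟨R, hR⟩ := hb.subset_ball 0
  refine ⟨f, δ / 2, R, by linarith, ?_, ?_, ?_, ?_⟩
  · exact f.contMDiff.contDiff
  · intro u hu
    apply hf0
    intro hmem
    have := hR hmem
    rw [mem_ball_zero_iff] at this
    linarith
  · intro y hy u hu
    apply hf1
    apply thickening_subset_cthickening
    rw [mem_thickening_iff]
    exact ⟨y, hy, by rw [dist_eq_norm]; exact hu⟩
  · intro y hy u hu
    apply hf0
    intro hmem
    have h3 : u ∈ thickening δ K2 := by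
      rw [mem_thickening_iff]
      exact ⟨y, hy, by rw [dist_eq_norm]; linarith⟩
    exact Set.disjoint_left.1 hdis hmem h3

/-- the function of `z 5 / z 6` -/
noncomputable def qf (f : ℂ → ℝ) (z : E7) : ℝ := if z 6 = 0 then 0 else f (z 5 / z 6)

theorem qf_smooth {f : ℂ → ℝ} {R : ℝ} (hf : ContDiff ℝ ∞ f) (hR : ∀ u, R ≤ ‖u‖ → f u = 0) :
    ContDiffOn ℝ ((⊤ : ℕ∞) : WithTop ℕ∞) (qf f) X2.U := by
  intro z hz
  apply ContDiffAt.contDiffWithinAt
  by_cases h6 : z 6 = 0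
  · have h5 : z 5 ≠ 0 := by
      rcases ((mem_U z).mp hz).2.2 with h | h
      · exact h
      · exact absurd h6 h
    have hopen : IsOpen {w : E7 | R * ‖w 6‖ < ‖w 5‖} :=
      isOpen_lt (continuous_const.mul (continuous_apply 6).norm) (continuous_apply 5).norm
    have hz' : z ∈ {w : E7 | R * ‖w 6‖ < ‖w 5‖} := by
      show R * ‖z 6‖ < ‖z 5‖
      rw [h6, norm_zero, mul_zero]
      exact norm_pos_iff.2 h5
    have hev : qf f =ᶠ[𝓝 z] fun _ => (0:ℝ) := by
      filter_upwards [hopen.mem_nhds hz'] with w hw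
      unfold qf
      split_ifs with h
      · rfl
      · apply hR
        have hw' : R * ‖w 6‖ < ‖w 5‖ := hw
        rw [norm_div, le_div_iff₀ (norm_pos_iff.2 h)]
        exact hw'.le
    exact contDiffAt_const.congr_of_eventuallyEq hev
  · have hopen : IsOpen {w : E7 | w 6 ≠ 0} :=
      isOpen_ne_fun (continuous_apply 6) continuous_const
    have hev : qf f =ᶠ[𝓝 z] fun w => f (w 5 * (w 6)⁻¹) := by
      filter_upwards [hopen.mem_nhds h6] with w hw
      unfold qf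
      rw [if_neg hw, div_eq_mul_inv]
    refine ContDiffAt.congr_of_eventuallyEq ?_ hev
    have hc : ∀ i : Fin 7, ContDiffAt ℝ ((⊤ : ℕ∞) : WithTop ℕ∞) (fun w : E7 => w i) z :=
      fun i => (contDiff_apply ℝ ℂ i).contDiffAt
    exact hf.contDiffAt.comp z ((hc 5).mul ((hc 6).inv h6))

theorem ap3 : Ap3Stmt := by
  intro 𝕂 hK hq r r' _
  have hK1 : IsCompact (𝕂 ∩ Icc (r:ℝ) r') := hK.inter_right isClosed_Icc
  have hK2 : IsCompact (𝕂 ∩ (Iic (r:ℝ) ∪ Ici (r':ℝ))) :=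
    hK.inter_right (isClosed_Iic.union isClosed_Ici)
  have hc : Continuous (fun y : ℝ => (y : ℂ)) := Complex.continuous_ofReal
  have hdis : Disjoint ((fun y : ℝ => (y : ℂ)) '' (𝕂 ∩ Icc (r:ℝ) r'))
      ((fun y : ℝ => (y : ℂ)) '' (𝕂 ∩ (Iic (r:ℝ) ∪ Ici (r':ℝ)))) := by
    rw [Set.disjoint_left]
    rintro u ⟨y, ⟨hy, hy1, hy2⟩, rfl⟩ ⟨y', ⟨hy', hy3⟩, he⟩
    have : y' = y := Complex.ofReal_injective he
    subst this
    rcases hy3 with h | h
    · have : y' = r := le_antisymm h hy1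
      exact hq r (this ▸ hy)
    · have : y' = r' := le_antisymm hy2 h
      exact hq r' (this ▸ hy)
  obtain ⟨f, δ, R, hδ, hf, hR, hf1, hf0⟩ := bump _ _ (hK1.image hc) (hK2.image hc) hdis
  have hval : ∀ y ∈ 𝕂, ∀ u : ℂ, ‖u - (y : ℂ)‖ < δ →
      f u = if (r : ℝ) < y ∧ y < r' then 1 else 0 := by
    intro y hy u hu
    split_ifs with h
    · exact hf1 _ ⟨y, ⟨hy, h.1.le, h.2.le⟩, rfl⟩ u hu
    · apply hf0 _ ⟨y, ⟨hy, ?_⟩, rfl⟩ u hu
      by_contra hcon
      rw [Set.mem_union, Set.mem_Iic, Set.mem_Ici] at hcon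
      push Not at hcon
      exact h hcon
  obtain ⟨j, hj⟩ := exists_nat_one_div_lt hδ
  refine ⟨qf f, ⟨⟨qf_smooth hf hR, ?_⟩, ?_, j, ?_⟩, j, ?_⟩
  · intro z _ c hcz
    have e5 : X2.act c z 5 = c 2 * z 5 := by rw [act_eq]; rfl
    have e6 : X2.act c z 6 = c 2 * z 6 := by rw [act_eq]; rfl
    unfold qf
    rw [e5, e6, mul_div_mul_left _ _ (hcz 2)]
    simp [hcz 2]
  · intro z w h5 h6
    unfold qf
    rw [h5, h6]
  · rintro z ⟨h1, h2, h3, y, hy, h4⟩
    have hopen : IsOpen ({w : E7 | w 6 ≠ 0} ∩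
        (fun w : E7 => ‖w 5 / w 6 - (y : ℂ)‖) ⁻¹' (Iio (1 / ((j:ℝ) + 1)))) := by
      apply ContinuousOn.isOpen_inter_preimage _ _ isOpen_Iio
      · apply ContinuousOn.norm
        apply ContinuousOn.sub _ continuousOn_const
        apply ContinuousOn.div
        · exact (continuous_apply 5).continuousOn
        · exact (continuous_apply 6).continuousOn
        · intro z hz; exact hz
      · exact isOpen_ne_fun (continuous_apply 6) continuous_const
    have hev : qf f =ᶠ[𝓝 z] fun _ => (if (r : ℝ) < y ∧ y < r' then (1:ℝ) else 0) := by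
      filter_upwards [hopen.mem_nhds ⟨h3, h4⟩] with w hw
      unfold qf
      rw [if_neg hw.1]
      exact hval y hy _ (lt_trans hw.2 hj)
    rw [hev.fderiv_eq]
    exact fderiv_const_apply _
  · rintro z ⟨h1, h2, h3, _⟩ y hy h4
    unfold qf
    rw [if_neg h3]
    exact hval y hy _ (lt_trans h4 hj)

end Pool.Agent.SIU.H20
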