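import Pool.Agent.Helper15_SIU.Stmts
import Pool.Agent.Helper15_SIU.Lib2

set_option autoImplicit false

open MeasureTheory Filter Topology Set

namespace Pool.Agent.SIU.H20

theorem continuousOn_rho : ContinuousOn rho X2.U := by
  unfold rho
  apply ContinuousOn.div
  · exact (continuous_AA.mul continuous_BB).continuousOn
  · exact continuous_DD.continuousOn
  · intro z hz; exact (DD_pos hz).ne'

theorem isOpen_Nb (𝕂 : Set ℝ) (j : ℕ) : IsOpen (Nb 𝕂 j) := by
  have h : Nb 𝕂 j = (X2.U ∩ rho ⁻¹' (Iio (1 / ((j:ℝ) + 1)))) ∩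
      ⋃ y ∈ 𝕂, ({z : E7 | z 6 ≠ 0} ∩
        (fun z : E7 => ‖z 5 / z 6 - (y : ℂ)‖) ⁻¹' (Iio (1 / ((j:ℝ) + 1)))) := by
    ext z
    unfold Nb
    simp only [Set.mem_ofPred_eq, Set.mem_inter_iff, Set.mem_preimage, Set.mem_Iio,
      Set.mem_iUnion, exists_prop]
    constructor
    · rintro ⟨h1, h2, h3, y, hy, h4⟩
      exact ⟨⟨h1, h2⟩, y, hy, h3, h4⟩
    · rintro ⟨⟨h1, h2⟩, y, hy, h3, h4⟩
      exact ⟨h1, h2, h3, y, hy, h4⟩
  rw [h]
  apply IsOpen.inter
  · exact continuousOn_rho.isOpen_inter_preimage isOpen_U isOpen_Iio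
  · apply isOpen_biUnion
    intro y _
    apply ContinuousOn.isOpen_inter_preimage _ _ isOpen_Iio
    · apply ContinuousOn.norm
      apply ContinuousOn.sub _ continuousOn_const
      apply ContinuousOn.div
      · exact (continuous_apply 5).continuousOn
      · exact (continuous_apply 6).continuousOn
      · intro z hz; exact hz
    · exact isOpen_ne_fun (continuous_apply 6) continuous_const

theorem nbo : NboStmt := by
  intro 𝕂 j
  refine ⟨isOpen_Nb 𝕂 j, ?_, ?_, ?_⟩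
  · rintro z ⟨h1, h2, h3, y, hy, h4⟩ c hc
    have e5 : X2.act c z 5 = c 2 * z 5 := by rw [act_eq]; rfl
    have e6 : X2.act c z 6 = c 2 * z 6 := by rw [act_eq]; rfl
    refine ⟨(act_mem_U hc z).2 h1, ?_, ?_, y, hy, ?_⟩
    · rw [rho_act hc]; exact h2
    · rw [e6]; exact mul_ne_zero (hc 2) h3
    · rw [e5, e6, mul_div_mul_left _ _ (hc 2)]
      exact h4
  · rintro z ⟨⟨h1, h2, h3, y, hy, h4⟩, hz⟩
    have e5 : flop z 5 = z 5 := by rw [flop_apply]; rfl
    have e6 : flop z 6 = z 6 := by rw [flop_apply]; rfl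
    refine ⟨(flop_mem hz).1, ?_, ?_, y, hy, ?_⟩
    · rw [rho_flop]; exact h2
    · rw [e6]; exact h3
    · rw [e5, e6]; exact h4
  · rintro j' hj z ⟨h1, h2, h3, y, hy, h4⟩
    have h5 : (1:ℝ) / ((j':ℝ) + 1) ≤ 1 / ((j:ℝ) + 1) := by
      apply one_div_le_one_div_of_le (by positivity)
      have : (j:ℝ) ≤ j' := by exact_mod_cast hj
      linarith
    exact ⟨h1, h2.trans_le h5, h3, y, hy, h4.trans_le h5⟩

end Pool.Agent.SIU.H20
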