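import Pool.Agent.Helper15_SIU.Stmts
import Pool.Agent.Helper15_SIU.Lib2

set_option autoImplicit false

open MeasureTheory Filter Topology Set Metric

namespace Pool.Agent.SIU.H20

theorem upd0 (a b c : E7) : Function.update ![a, c] 0 b = ![b, c] := by
  funext i
  fin_cases i <;> rfl

theorem upd1 (a b c : E7) : Function.update ![c, a] 1 b = ![c, b] := by
  funext i
  fin_cases i <;> rfl

theorem alt_add_left (η : Alt 7 2) (a b c : E7) : η ![a + b, c] = η ![a, c] + η ![b, c] := by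
  have h := η.map_update_add ![0, c] 0 a b
  rw [upd0, upd0, upd0] at h
  exact h

theorem alt_add_right (η : Alt 7 2) (a b c : E7) : η ![c, a + b] = η ![c, a] + η ![c, b] := by
  have h := η.map_update_add ![c, 0] 1 a b
  rw [upd1, upd1, upd1] at h
  exact h

theorem cvec_two (v : E7) : (cvec (fun _ => v) 2 : Fin 2 → E7) = ![v, Complex.I • v] := by
  funext i
  fin_cases i <;> simp [cvec]

theorem basic_bound {η : E7 → Alt 7 2} (hb : X2.BasicOn X2.U η) (hc : ContinuousOn η X2.U) :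
    ∃ C : ℝ, 0 ≤ C ∧ ∀ (ζ : ℂ) (y : ℝ),
      |η (pt ζ y) ![e0, Complex.I • e0]| ≤ C * ((1 + ‖ζ‖ ^ 2)⁻¹) ^ 2 := by
  obtain ⟨C, hC⟩ := isCompact_Shell.exists_bound_of_continuousOn (hc.mono Shell_subset)
  refine ⟨max C 0, le_max_right _ _, ?_⟩
  intro ζ y
  have hS0 : (0:ℝ) < 1 + ‖ζ‖ ^ 2 := by positivity
  have hY0 : (0:ℝ) < 1 + y ^ 2 := by positivity
  obtain ⟨a, ha⟩ : ∃ a : ℝ, a = (√(1 + ‖ζ‖ ^ 2))⁻¹ := ⟨_, rfl⟩
  obtain ⟨b, hb'⟩ : ∃ b : ℝ, b = (√(1 + y ^ 2))⁻¹ := ⟨_, rfl⟩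
  have ha0 : 0 < a := by rw [ha]; positivity
  have hb0 : 0 < b := by rw [hb']; positivity
  have ha2 : a ^ 2 = (1 + ‖ζ‖ ^ 2)⁻¹ := by
    rw [ha, inv_pow, Real.sq_sqrt hS0.le]
  have ha3 : a ^ 2 * (1 + ‖ζ‖ ^ 2) = 1 := by rw [ha2]; exact inv_mul_cancel₀ hS0.ne'
  have hb3 : b ^ 2 * (1 + y ^ 2) = 1 := by
    rw [hb', inv_pow, Real.sq_sqrt hY0.le]; exact inv_mul_cancel₀ hY0.ne'
  set c : Fin 3 → ℂ := ![(a : ℂ), 1, (b : ℂ)] with hcdef
  have hc0 : ∀ j, c j ≠ 0 := by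
    intro j
    fin_cases j
    · show (a : ℂ) ≠ 0
      exact_mod_cast ha0.ne'
    · show (1 : ℂ) ≠ 0
      exact one_ne_zero
    · show (b : ℂ) ≠ 0
      exact_mod_cast hb0.ne'
  have hpt : pt ζ y ∈ X2.U := by
    rw [mem_U]
    refine ⟨Or.inr ?_, Or.inr (Or.inr ?_), Or.inr ?_⟩
    · show (1:ℂ) ≠ 0
      exact one_ne_zero
    · show (1:ℂ) ≠ 0
      exact one_ne_zero
    · show (1:ℂ) ≠ 0
      exact one_ne_zero
  have hz : X2.act c (pt ζ y) = ![(a:ℂ) * ζ, a, 0, 0, 1, b * y, b] := by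
    rw [act_eq]
    funext i
    fin_cases i <;> simp [c, pt]
  have he : X2.act c e0 = ![(a:ℂ), 0, 0, 0, 0, 0, 0] := by
    rw [act_eq]
    funext i
    fin_cases i <;> simp [c, e0]
  have hie : X2.act c (Complex.I • e0) = Complex.I • X2.act c e0 := by
    rw [← actL_apply, ← actL_apply, map_smul]
  have h1 := hb.1 (pt ζ y) hpt c hc0 ![e0, Complex.I • e0]
  have h2 : (fun i => X2.act c ((![e0, Complex.I • e0] : Fin 2 → E7) i))
      = ![X2.act c e0, Complex.I • X2.act c e0] := by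
    funext i
    fin_cases i
    · rfl
    · exact hie
  rw [h2] at h1
  rw [← h1]
  obtain ⟨z', hz'⟩ : ∃ z', z' = X2.act c (pt ζ y) := ⟨_, rfl⟩
  rw [← hz']
  rw [hz] at hz'
  -- the point is in the shell
  have hna : ‖(a:ℂ)‖ = a := by rw [Complex.norm_real, Real.norm_of_nonneg ha0.le]
  have hnb : ‖(b:ℂ)‖ = b := by rw [Complex.norm_real, Real.norm_of_nonneg hb0.le]
  have hA : AA z' = 1 := by
    rw [hz']
    show ‖(a:ℂ) * ζ‖ ^ 2 + ‖(a:ℂ)‖ ^ 2 = 1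
    rw [norm_mul, hna]
    calc (a * ‖ζ‖) ^ 2 + a ^ 2 = a ^ 2 * (1 + ‖ζ‖ ^ 2) := by ring
      _ = 1 := ha3
  have hB : BB z' = 0 := by
    rw [hz']
    show ‖(0:ℂ)‖ ^ 2 + ‖(0:ℂ)‖ ^ 2 = 0
    simp
  have h4 : ‖z' 4‖ ^ 2 = 1 := by
    rw [hz']
    show ‖(1:ℂ)‖ ^ 2 = 1
    simp
  have hD : DD z' = 1 := by rw [DD_eq, hA, hB, h4]; norm_num
  have hY : YY z' = 1 := by
    rw [hz']
    show ‖(b:ℂ) * (y:ℂ)‖ ^ 2 + ‖(b:ℂ)‖ ^ 2 = 1
    rw [norm_mul, hnb, Complex.norm_real, Real.norm_eq_abs]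
    calc (b * |y|) ^ 2 + b ^ 2 = b ^ 2 * (1 + |y| ^ 2) := by ring
      _ = b ^ 2 * (1 + y ^ 2) := by rw [sq_abs]
      _ = 1 := hb3
  have hSh : z' ∈ Shell := by
    unfold Shell
    show 1 / 2 ≤ AA z' ∧ AA z' ≤ 2 ∧ 1 / 2 ≤ DD z' ∧ DD z' ≤ 2 ∧ 1 / 2 ≤ YY z' ∧ YY z' ≤ 2
    rw [hA, hD, hY]
    norm_num
  have hU : z' ∈ X2.U := Shell_subset hSh
  -- vertical vectors
  obtain ⟨V, hV⟩ : ∃ V : E7, V = ![(a:ℂ) ^ 2 * (starRingEnd ℂ) ζ * z' 0,
    (a:ℂ) ^ 2 * (starRingEnd ℂ) ζ * z' 1, 0, 0, 0, 0, 0] := ⟨_, rfl⟩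
  have hVv : ∀ t : ℂ, X2.Vert z' (t • V) := by
    intro t
    rw [vert_iff]
    refine ⟨t * ((a:ℂ) ^ 2 * (starRingEnd ℂ) ζ), 0, 0, ?_⟩
    rw [hV, hz']
    funext i
    fin_cases i <;> simp <;> ring
  obtain ⟨x, hx⟩ : ∃ x : E7, x = X2.act c e0 := ⟨_, rfl⟩
  rw [← hx]
  rw [he] at hx
  obtain ⟨w, hw⟩ : ∃ w : E7, w = x - V := ⟨_, rfl⟩
  have hxw : x = w + V := by rw [hw]; abel
  have hcc : (ζ : ℂ) * (starRingEnd ℂ) ζ = ((‖ζ‖ ^ 2 : ℝ) : ℂ) := by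
    rw [Complex.mul_conj, Complex.normSq_eq_norm_sq]
  have hwe : w = ![((a ^ 3 : ℝ) : ℂ), -((a ^ 3 : ℝ) : ℂ) * (starRingEnd ℂ) ζ, 0, 0, 0, 0, 0] := by
    rw [hw, hx, hV, hz']
    funext i
    fin_cases i
    · show (a:ℂ) - (a:ℂ) ^ 2 * (starRingEnd ℂ) ζ * ((a:ℂ) * ζ) = ((a ^ 3 : ℝ) : ℂ)
      have e1 : (a:ℂ) ^ 2 * (starRingEnd ℂ) ζ * ((a:ℂ) * ζ)
          = (a:ℂ) ^ 3 * (ζ * (starRingEnd ℂ) ζ) := by ring
      rw [e1, hcc]
      have e2 : a - a ^ 3 * ‖ζ‖ ^ 2 = a ^ 3 := by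
        calc a - a ^ 3 * ‖ζ‖ ^ 2 = a * 1 - a ^ 3 * ‖ζ‖ ^ 2 := by ring
          _ = a * (a ^ 2 * (1 + ‖ζ‖ ^ 2)) - a ^ 3 * ‖ζ‖ ^ 2 := by rw [ha3]
          _ = a ^ 3 := by ring
      exact_mod_cast congrArg (fun t : ℝ => (t : ℂ)) e2
    · show (0:ℂ) - (a:ℂ) ^ 2 * (starRingEnd ℂ) ζ * (a:ℂ) = -((a ^ 3 : ℝ) : ℂ) * (starRingEnd ℂ) ζ
      push_cast
      ring
    all_goals simp
  have hwn : ‖w‖ ≤ a ^ 2 := by
    have haζ : a * ‖ζ‖ ≤ 1 := by
      have : (a * ‖ζ‖) ^ 2 ≤ 1 := by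
        calc (a * ‖ζ‖) ^ 2 = a ^ 2 * (1 + ‖ζ‖ ^ 2) - a ^ 2 := by ring
          _ = 1 - a ^ 2 := by rw [ha3]
          _ ≤ 1 := by linarith [sq_nonneg a]
      exact (sq_le_one_iff₀ (by positivity)).1 this
    have ha1 : a ≤ 1 := by
      have : a ^ 2 ≤ 1 := by nlinarith [sq_nonneg a, sq_nonneg ‖ζ‖]
      exact (sq_le_one_iff₀ ha0.le).1 this
    rw [pi_norm_le_iff_of_nonneg (by positivity)]
    have hna3 : ‖((a ^ 3 : ℝ) : ℂ)‖ = a ^ 3 := by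
      rw [Complex.norm_real, Real.norm_of_nonneg (by positivity)]
    intro i
    rw [hwe]
    fin_cases i
    · show ‖((a ^ 3 : ℝ) : ℂ)‖ ≤ a ^ 2
      rw [hna3]
      nlinarith [sq_nonneg a]
    · show ‖-((a ^ 3 : ℝ) : ℂ) * (starRingEnd ℂ) ζ‖ ≤ a ^ 2
      rw [norm_mul, norm_neg, hna3, RCLike.norm_conj]
      calc a ^ 3 * ‖ζ‖ = a ^ 2 * (a * ‖ζ‖) := by ring
        _ ≤ a ^ 2 * 1 := mul_le_mul_of_nonneg_left haζ (by positivity)
        _ = a ^ 2 := by ring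
    all_goals
      simp
      positivity
  have hkey : η z' ![x, Complex.I • x] = η z' ![w, Complex.I • w] := by
    rw [hxw, smul_add, alt_add_left, alt_add_right, alt_add_right]
    have v1 : η z' ![w, Complex.I • V] = 0 := hb.2 z' hU ![w, Complex.I • V] 1 (hVv _)
    have v2 : η z' ![V, Complex.I • w] = 0 := hb.2 z' hU ![V, Complex.I • w] 0
      (by have := hVv 1; rw [one_smul] at this; exact this)
    have v3 : η z' ![V, Complex.I • V] = 0 := hb.2 z' hU ![V, Complex.I • V] 0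
      (by have := hVv 1; rw [one_smul] at this; exact this)
    rw [v1, v2, v3]
    ring
  rw [hkey]
  have hop := (η z').le_opNorm ![w, Complex.I • w]
  have hprod : ∏ i, ‖(![w, Complex.I • w] : Fin 2 → E7) i‖ ≤ (a ^ 2) ^ 2 := by
    rw [Fin.prod_univ_two]
    show ‖w‖ * ‖Complex.I • w‖ ≤ (a ^ 2) ^ 2
    rw [norm_smul, Complex.norm_I, one_mul, pow_two (a ^ 2)]
    exact mul_le_mul hwn hwn (norm_nonneg _) (by positivity)
  calc |η z' ![w, Complex.I • w]| ≤ ‖η z'‖ * ∏ i, ‖(![w, Complex.I • w] : Fin 2 → E7) i‖ := hop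
    _ ≤ max C 0 * (a ^ 2) ^ 2 := by
        apply mul_le_mul ((hC z' hSh).trans (le_max_left _ _)) hprod
          (Finset.prod_nonneg (fun i _ => norm_nonneg _)) (le_max_right _ _)
    _ = max C 0 * ((1 + ‖ζ‖ ^ 2)⁻¹) ^ 2 := by rw [ha2]

/-- the mass in the `ζ` direction is `o(ρ)` -/
theorem zint (u0 u1 : ℂ) (h01 : u0 ≠ 0 ∨ u1 ≠ 0) (C : ℝ) (hC : 0 ≤ C) (ε : ℝ) (hε : 0 < ε) :
    ∃ ρ₁ > 0, ∀ ρ : ℝ, 0 < ρ → ρ < ρ₁ → ∀ g : ℂ → ℝ,
      (∀ ζ, |g ζ| ≤ C * ((1 + ‖ζ‖ ^ 2)⁻¹) ^ 2) →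
      (∀ ζ, g ζ ≠ 0 → ‖u1 * ζ - u0‖ ≤ ρ * (1 + ‖ζ‖)) → |∫ ζ, g ζ| ≤ ε * ρ := by
  by_cases h1 : u1 = 0
  · have h0 : u0 ≠ 0 := by
      rcases h01 with h | h
      · exact h
      · exact absurd h1 h
    have hm : 0 < ‖u0‖ := norm_pos_iff.2 h0
    obtain ⟨J, hJ⟩ : ∃ J : ℝ, J = ∫ ζ : ℂ, (1 + ‖ζ‖) ^ (-(5 / 2) : ℝ) := ⟨_, rfl⟩
    have hint : Integrable (fun ζ : ℂ => (1 + ‖ζ‖) ^ (-(5 / 2) : ℝ)) := by
      apply integrable_one_add_norm
      rw [Complex.finrank_real_complex]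
      norm_num
    have hJ0 : 0 ≤ J := by rw [hJ]; exact integral_nonneg (fun ζ => by positivity)
    obtain ⟨Q, hQ⟩ : ∃ Q : ℝ, Q = 4 * C * J * ‖u0‖ ^ (-(3 / 2) : ℝ) := ⟨_, rfl⟩
    have hQ0 : 0 ≤ Q := by rw [hQ]; positivity
    refine ⟨(ε / (Q + 1)) ^ 2, by positivity, ?_⟩
    intro ρ hρ hρ1 g hg hs
    have hpt : ∀ ζ, ‖g ζ‖ ≤ (4 * C * (ρ / ‖u0‖) ^ (3 / 2 : ℝ)) * (1 + ‖ζ‖) ^ (-(5 / 2) : ℝ) := by
      intro ζ
      rw [Real.norm_eq_abs]
      by_cases hz : g ζ = 0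
      · rw [hz, abs_zero]; positivity
      · have e1 := hs ζ hz
        rw [h1, zero_mul, zero_sub, norm_neg] at e1
        have ht : 0 < 1 + ‖ζ‖ := by positivity
        have e2 : (1 + ‖ζ‖) ^ (-(3 / 2) : ℝ) ≤ (ρ / ‖u0‖) ^ (3 / 2 : ℝ) := by
          rw [Real.rpow_neg ht.le, ← Real.inv_rpow ht.le]
          apply Real.rpow_le_rpow (by positivity) _ (by norm_num)
          rw [inv_eq_one_div, div_le_div_iff₀ ht hm]
          linarith
        have e3 : ((1 + ‖ζ‖ ^ 2)⁻¹) ^ 2 ≤ 4 * ((1 + ‖ζ‖) ^ (-(3 / 2) : ℝ)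
            * (1 + ‖ζ‖) ^ (-(5 / 2) : ℝ)) := by
          rw [← Real.rpow_add ht]
          have e4 : (-(3 / 2) + -(5 / 2) : ℝ) = -((4:ℕ):ℝ) := by norm_num
          rw [e4, Real.rpow_neg ht.le, Real.rpow_natCast, inv_pow, ← one_div, ← one_div,
            mul_one_div, div_le_div_iff₀ (by positivity) (by positivity)]
          have e5 : (1 + ‖ζ‖) ^ 2 ≤ 2 * (1 + ‖ζ‖ ^ 2) := by nlinarith [sq_nonneg (1 - ‖ζ‖)]
          have e6 := pow_le_pow_left₀ (by positivity) e5 2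
          nlinarith
        calc |g ζ| ≤ C * ((1 + ‖ζ‖ ^ 2)⁻¹) ^ 2 := hg ζ
          _ ≤ C * (4 * ((1 + ‖ζ‖) ^ (-(3 / 2) : ℝ) * (1 + ‖ζ‖) ^ (-(5 / 2) : ℝ))) :=
              mul_le_mul_of_nonneg_left e3 hC
          _ = (4 * C * (1 + ‖ζ‖) ^ (-(3 / 2) : ℝ)) * (1 + ‖ζ‖) ^ (-(5 / 2) : ℝ) := by ring
          _ ≤ _ := by
              apply mul_le_mul_of_nonneg_right _ (by positivity)
              exact mul_le_mul_of_nonneg_left e2 (by positivity)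
    have h2 := norm_integral_le_of_norm_le (hint.const_mul (4 * C * (ρ / ‖u0‖) ^ (3 / 2 : ℝ)))
      (Filter.Eventually.of_forall hpt)
    rw [integral_const_mul, ← hJ, Real.norm_eq_abs] at h2
    refine h2.trans ?_
    have e7 : (ρ / ‖u0‖) ^ (3 / 2 : ℝ) = ρ * √ρ * ‖u0‖ ^ (-(3 / 2) : ℝ) := by
      rw [Real.div_rpow hρ.le hm.le, Real.rpow_neg hm.le, div_eq_mul_inv]
      congr 1
      rw [Real.sqrt_eq_rpow]
      conv_rhs => rw [← Real.rpow_one ρ, ← Real.rpow_mul hρ.le, ← Real.rpow_add hρ]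
      norm_num
    rw [e7]
    have e8 : √ρ * (Q + 1) ≤ ε := by
      have e9 : √ρ ≤ ε / (Q + 1) := by
        rw [← Real.sqrt_sq (show 0 ≤ ε / (Q + 1) by positivity)]
        exact Real.sqrt_le_sqrt hρ1.le
      rwa [le_div_iff₀ (by positivity)] at e9
    calc 4 * C * (ρ * √ρ * ‖u0‖ ^ (-(3 / 2) : ℝ)) * J = (√ρ * Q) * ρ := by rw [hQ]; ring
      _ ≤ ε * ρ := by
          apply mul_le_mul_of_nonneg_right _ hρ.le
          nlinarith [Real.sqrt_nonneg ρ]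
  · have hn : 0 < ‖u1‖ := norm_pos_iff.2 h1
    obtain ⟨R, hR⟩ : ∃ R : ℝ, R = 2 * (‖u0‖ + 1) / ‖u1‖ := ⟨_, rfl⟩
    have hR0 : 0 ≤ R := by rw [hR]; positivity
    obtain ⟨M, hM⟩ : ∃ M : ℝ, M = (1 + R) / ‖u1‖ := ⟨_, rfl⟩
    have hM0 : 0 ≤ M := by rw [hM]; positivity
    refine ⟨min (min 1 (‖u1‖ / 2)) (ε / (C * (M ^ 2 * Real.pi) + 1)), by positivity, ?_⟩
    intro ρ hρ hρ1 g hg hs
    have hr1 : ρ < 1 := lt_of_lt_of_le hρ1 ((min_le_left _ _).trans (min_le_left _ _))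
    have hr2 : ρ < ‖u1‖ / 2 := lt_of_lt_of_le hρ1 ((min_le_left _ _).trans (min_le_right _ _))
    have hr3 : ρ < ε / (C * (M ^ 2 * Real.pi) + 1) := lt_of_lt_of_le hρ1 (min_le_right _ _)
    have hsupp : ∀ ζ, ζ ∉ closedBall (u0 / u1) (ρ * M) → g ζ = 0 := by
      intro ζ hζ
      by_contra hne
      apply hζ
      have e1 := hs ζ hne
      have e2 : ‖ζ‖ ≤ R := by
        have e3 : ‖u1‖ * ‖ζ‖ ≤ ‖u0‖ + ρ * (1 + ‖ζ‖) := by
          calc ‖u1‖ * ‖ζ‖ = ‖(u1 * ζ - u0) + u0‖ := by rw [sub_add_cancel, norm_mul]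
            _ ≤ ‖u1 * ζ - u0‖ + ‖u0‖ := norm_add_le _ _
            _ ≤ _ := by linarith
        rw [hR, le_div_iff₀ hn]
        nlinarith [norm_nonneg ζ]
      rw [mem_closedBall, dist_eq_norm]
      have e4 : ζ - u0 / u1 = (u1 * ζ - u0) / u1 := by field_simp
      rw [e4, norm_div, hM, div_le_iff₀ hn]
      have e5 : ρ * ((1 + R) / ‖u1‖) * ‖u1‖ = ρ * (1 + R) := by field_simp
      rw [e5]
      refine e1.trans ?_
      apply mul_le_mul_of_nonneg_left _ hρ.le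
      linarith
    have hgC : ∀ ζ, ‖g ζ‖ ≤ C := by
      intro ζ
      rw [Real.norm_eq_abs]
      refine (hg ζ).trans ?_
      have e1 : (1 + ‖ζ‖ ^ 2)⁻¹ ≤ 1 := inv_le_one_of_one_le₀ (by linarith [sq_nonneg ‖ζ‖])
      have e2 : ((1 + ‖ζ‖ ^ 2)⁻¹) ^ 2 ≤ 1 := pow_le_one₀ (by positivity) e1
      nlinarith
    rw [← setIntegral_eq_integral_of_forall_compl_eq_zero hsupp, ← Real.norm_eq_abs]
    have hvol : volume.real (closedBall (u0 / u1) (ρ * M)) = (ρ * M) ^ 2 * Real.pi := by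
      unfold Measure.real
      rw [Complex.volume_closedBall, ENNReal.toReal_mul, ENNReal.toReal_pow,
        ENNReal.toReal_ofReal (by positivity)]
      rfl
    have h2 := norm_setIntegral_le_of_norm_le_const (f := g) (μ := volume)
      (s := closedBall (u0 / u1) (ρ * M)) (C := C) (isCompact_closedBall _ _).measure_lt_top
      (fun ζ _ => hgC ζ)
    rw [hvol] at h2
    refine h2.trans ?_
    rw [lt_div_iff₀ (by positivity)] at hr3
    calc C * ((ρ * M) ^ 2 * Real.pi) = (ρ * (C * (M ^ 2 * Real.pi))) * ρ := by ring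
      _ ≤ ε * ρ := by
          apply mul_le_mul_of_nonneg_right _ hρ.le
          nlinarith

theorem tll (hK : KfmStmt) : TllStmt := by
  intro 𝕂 hcpt T hT u hu
  obtain ⟨hk1, hk2, hk3, -⟩ := hK
  -- the bound for the Kähler form
  have hbd : ∃ C : ℝ, 0 ≤ C ∧ ∀ (ζ : ℂ) (y : ℝ),
      |X2.kahler (pt ζ y) ![e0, Complex.I • e0]| ≤ C * ((1 + ‖ζ‖ ^ 2)⁻¹) ^ 2 := by
    have hL := hk3 kL (by simp)
    have hH := hk3 kH (by simp)
    have hY := hk3 kY (by simp)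
    obtain ⟨C1, hC1, h1⟩ := basic_bound hL.1 hL.2.continuousOn
    obtain ⟨C2, hC2, h2⟩ := basic_bound hH.1 hH.2.continuousOn
    obtain ⟨C3, hC3, h3⟩ := basic_bound hY.1 hY.2.continuousOn
    refine ⟨C1 + C2 + C3, by positivity, ?_⟩
    intro ζ y
    have hpt : pt ζ y ∈ X2.U := by
      rw [mem_U]
      refine ⟨Or.inr ?_, Or.inr (Or.inr ?_), Or.inr ?_⟩
      · show (1:ℂ) ≠ 0
        exact one_ne_zero
      · show (1:ℂ) ≠ 0
        exact one_ne_zero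
      · show (1:ℂ) ≠ 0
        exact one_ne_zero
    rw [hk1 _ hpt]
    have e1 : (kL (pt ζ y) + kH (pt ζ y) + kY (pt ζ y)) ![e0, Complex.I • e0]
        = kL (pt ζ y) ![e0, Complex.I • e0] + kH (pt ζ y) ![e0, Complex.I • e0]
          + kY (pt ζ y) ![e0, Complex.I • e0] := rfl
    rw [e1]
    have a1 := abs_add_le (kL (pt ζ y) ![e0, Complex.I • e0] + kH (pt ζ y) ![e0, Complex.I • e0])
      (kY (pt ζ y) ![e0, Complex.I • e0])
    have a2 := abs_add_le (kL (pt ζ y) ![e0, Complex.I • e0]) (kH (pt ζ y) ![e0, Complex.I • e0])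
    have a3 := h1 ζ y
    have a4 := h2 ζ y
    have a5 := h3 ζ y
    nlinarith
  obtain ⟨C, hC0, hCb⟩ := hbd
  obtain ⟨R0, hR0⟩ := hcpt.isBounded.exists_norm_le
  obtain ⟨R, hR⟩ : ∃ R : ℝ, R = max R0 0 := ⟨_, rfl⟩
  have hRn : 0 ≤ R := by rw [hR]; exact le_max_right _ _
  have hRb : ∀ y ∈ 𝕂, |y| ≤ R := by
    intro y hy
    rw [hR]
    exact (hR0 y hy).trans (le_max_left _ _)
  have hu' := (mem_U u).1 hu
  intro ε hε
  -- common part
  have hcommon : ∀ ρ : ℝ, 0 < ρ → ∀ h : E7 → ℝ,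
      (∀ z ∈ X2.U, 0 ≤ h z ∧ h z ≤ 1) →
      (∀ z ∈ X2.U, h z ≠ 0 → ∃ c : Fin 3 → ℂ, (∀ j, c j ≠ 0) ∧ ‖X2.act c z - u‖ < ρ) →
      ∀ β : X2.Form (2 * 1), (∀ z ∈ X2.U, β.1 z = h z • X2.kpow 1 z) →
      ∀ (y : ℝ) (ζ : ℂ),
        |β.1 (pt ζ y) (cvec (fun _ => e0) (2 * 1))| ≤ C * ((1 + ‖ζ‖ ^ 2)⁻¹) ^ 2 ∧
        (β.1 (pt ζ y) (cvec (fun _ => e0) (2 * 1)) ≠ 0 →
          ‖u 1 * ζ - u 0‖ ≤ ρ * (1 + ‖ζ‖) ∧ ‖u 6 * y - u 5‖ ≤ ρ * (1 + |y|)) := by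
    intro ρ hρ h hh1 hh2 β hβ y ζ
    have hpt : pt ζ y ∈ X2.U := by
      rw [mem_U]
      refine ⟨Or.inr ?_, Or.inr (Or.inr ?_), Or.inr ?_⟩
      · show (1:ℂ) ≠ 0
        exact one_ne_zero
      · show (1:ℂ) ≠ 0
        exact one_ne_zero
      · show (1:ℂ) ≠ 0
        exact one_ne_zero
    have e1 : β.1 (pt ζ y) (cvec (fun _ => e0) (2 * 1))
        = h (pt ζ y) * X2.kahler (pt ζ y) ![e0, Complex.I • e0] := by
      rw [hβ _ hpt]
      have e2 := hk2 _ hpt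
      have e3 : (cvec (fun _ => e0) (2 * 1) : Fin (2 * 1) → E7) = ![e0, Complex.I • e0] :=
        cvec_two e0
      rw [e3, ← e2]
      rfl
    obtain ⟨hp0, hp1⟩ := hh1 _ hpt
    refine ⟨?_, ?_⟩
    · rw [e1, abs_mul, abs_of_nonneg hp0]
      have := hCb ζ y
      calc h (pt ζ y) * |X2.kahler (pt ζ y) ![e0, Complex.I • e0]|
          ≤ 1 * |X2.kahler (pt ζ y) ![e0, Complex.I • e0]| :=
            mul_le_mul_of_nonneg_right hp1 (abs_nonneg _)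
        _ ≤ _ := by rw [one_mul]; exact this
    · intro hne
      have hne' : h (pt ζ y) ≠ 0 := by
        intro h0
        apply hne
        rw [e1, h0, zero_mul]
      obtain ⟨c, hc, hcn⟩ := hh2 _ hpt hne'
      have hcomp : ∀ i, ‖X2.act c (pt ζ y) i - u i‖ < ρ := fun i =>
        lt_of_le_of_lt (norm_le_pi_norm (X2.act c (pt ζ y) - u) i) hcn
      have g0 : X2.act c (pt ζ y) 0 = c 0 * ζ := by rw [act_eq]; rfl
      have g1 : X2.act c (pt ζ y) 1 = c 0 := by rw [act_eq]; simp [pt]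
      have g5 : X2.act c (pt ζ y) 5 = c 2 * y := by rw [act_eq]; rfl
      have g6 : X2.act c (pt ζ y) 6 = c 2 := by rw [act_eq]; simp [pt]
      have k0 := hcomp 0
      have k1 := hcomp 1
      have k5 := hcomp 5
      have k6 := hcomp 6
      rw [g0] at k0
      rw [g1] at k1
      rw [g5] at k5
      rw [g6] at k6
      constructor
      · calc ‖u 1 * ζ - u 0‖ = ‖(c 0 * ζ - u 0) - (c 0 - u 1) * ζ‖ := by congr 1; ring
          _ ≤ ‖c 0 * ζ - u 0‖ + ‖(c 0 - u 1) * ζ‖ := norm_sub_le _ _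
          _ = ‖c 0 * ζ - u 0‖ + ‖c 0 - u 1‖ * ‖ζ‖ := by rw [norm_mul]
          _ ≤ ρ + ρ * ‖ζ‖ := by
              apply add_le_add k0.le
              exact mul_le_mul_of_nonneg_right k1.le (norm_nonneg _)
          _ = _ := by ring
      · calc ‖u 6 * y - u 5‖ = ‖(c 2 * y - u 5) - (c 2 - u 6) * y‖ := by congr 1; ring
          _ ≤ ‖c 2 * y - u 5‖ + ‖(c 2 - u 6) * y‖ := norm_sub_le _ _
          _ = ‖c 2 * y - u 5‖ + ‖c 2 - u 6‖ * |y| := by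
              rw [norm_mul, Complex.norm_real, Real.norm_eq_abs]
          _ ≤ ρ + ρ * |y| := by
              apply add_le_add k5.le
              exact mul_le_mul_of_nonneg_right k6.le (abs_nonneg _)
          _ = _ := by ring
  by_cases h6 : u 6 = 0
  · have h5 : 0 < ‖u 5‖ := by
      rcases hu'.2.2 with h | h
      · exact norm_pos_iff.2 h
      · exact absurd h6 h
    refine ⟨‖u 5‖ / (1 + R), by positivity, ?_⟩
    intro ρ hρ hρ1 h hh1 hh2 β hβ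
    have hc := hcommon ρ hρ h hh1 hh2 β hβ
    rw [lt_div_iff₀ (by positivity)] at hρ1
    have hz : T β = 0 := by
      rw [hT β]
      have : ∀ y ∈ 𝕂, ∫ ζ : ℂ, β.1 (pt ζ y) (cvec (fun _ => e0) (2 * 1)) = 0 := by
        intro y hy
        have e1 : (fun ζ : ℂ => β.1 (pt ζ y) (cvec (fun _ => e0) (2 * 1))) = fun _ => (0:ℝ) := by
          funext ζ
          by_contra hne
          have e2 := ((hc y ζ).2 hne).2
          rw [h6, zero_mul, zero_sub, norm_neg] at e2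
          have e3 := hRb y hy
          nlinarith
        rw [e1, integral_zero]
      rw [setIntegral_congr_fun hcpt.measurableSet this, integral_zero]
    rw [hz]
    positivity
  · have h6n : 0 < ‖u 6‖ := norm_pos_iff.2 h6
    obtain ⟨M, hM⟩ : ∃ M : ℝ, M = (1 + R) / ‖u 6‖ := ⟨_, rfl⟩
    have hM0 : 0 < M := by rw [hM]; positivity
    obtain ⟨ρ₁, hρ₁, hz⟩ := zint (u 0) (u 1) hu'.1 C hC0 (ε / (2 * M)) (by positivity)
    refine ⟨ρ₁, hρ₁, ?_⟩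
    intro ρ hρ hρ1 h hh1 hh2 β hβ
    have hc := hcommon ρ hρ h hh1 hh2 β hβ
    obtain ⟨a, ha⟩ : ∃ a : ℝ, a = (u 5 / u 6).re := ⟨_, rfl⟩
    have hF : ∀ y, |∫ ζ : ℂ, β.1 (pt ζ y) (cvec (fun _ => e0) (2 * 1))| ≤ ε / (2 * M) * ρ :=
      fun y => hz ρ hρ hρ1 _ (fun ζ => (hc y ζ).1) (fun ζ hne => ((hc y ζ).2 hne).1)
    have hsupp : ∀ y ∈ 𝕂, y ∉ Icc (a - ρ * M) (a + ρ * M) →
        ∫ ζ : ℂ, β.1 (pt ζ y) (cvec (fun _ => e0) (2 * 1)) = 0 := by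
      intro y hy hny
      have e1 : (fun ζ : ℂ => β.1 (pt ζ y) (cvec (fun _ => e0) (2 * 1))) = fun _ => (0:ℝ) := by
        funext ζ
        by_contra hne
        apply hny
        have e2 := ((hc y ζ).2 hne).2
        have e3 := hRb y hy
        have e4 : |y - a| ≤ ρ * M := by
          have e5 : y - a = ((y : ℂ) - u 5 / u 6).re := by
            rw [ha, Complex.sub_re, Complex.ofReal_re]
          rw [e5]
          refine (Complex.abs_re_le_norm _).trans ?_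
          have e6 : (y : ℂ) - u 5 / u 6 = (u 6 * y - u 5) / u 6 := by field_simp
          rw [e6, norm_div, hM, div_le_iff₀ h6n]
          have e7 : ρ * ((1 + R) / ‖u 6‖) * ‖u 6‖ = ρ * (1 + R) := by field_simp
          rw [e7]
          refine e2.trans ?_
          apply mul_le_mul_of_nonneg_left _ hρ.le
          linarith
        rw [abs_le] at e4
        constructor <;> linarith
      rw [e1, integral_zero]
    rw [hT β, ← integral_indicator hcpt.measurableSet]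
    have hG : Integrable ((Icc (a - ρ * M) (a + ρ * M)).indicator
        (fun _ : ℝ => ε / (2 * M) * ρ)) := by
      apply IntegrableOn.integrable_indicator _ measurableSet_Icc
      exact integrableOn_const (by rw [Real.volume_Icc]; exact ENNReal.ofReal_ne_top)
    have hle := norm_integral_le_of_norm_le (μ := (volume : Measure ℝ))
      (f := 𝕂.indicator (fun y => ∫ ζ : ℂ, β.1 (pt ζ y) (cvec (fun _ => e0) (2 * 1)))) hG
      (Filter.Eventually.of_forall (by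
        intro y
        by_cases hy : y ∈ 𝕂
        · rw [indicator_of_mem hy, Real.norm_eq_abs]
          by_cases hy' : y ∈ Icc (a - ρ * M) (a + ρ * M)
          · rw [indicator_of_mem hy']
            exact hF y
          · rw [indicator_of_notMem hy', hsupp y hy hy', abs_zero]
        · rw [indicator_of_notMem hy, norm_zero]
          apply indicator_nonneg
          intro _ _
          positivity))
    rw [integral_indicator_const _ measurableSet_Icc] at hle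
    have hv : volume.real (Icc (a - ρ * M) (a + ρ * M)) = 2 * (ρ * M) := by
      unfold Measure.real
      rw [Real.volume_Icc, ENNReal.toReal_ofReal (by
        have : 0 ≤ ρ * M := by positivity
        linarith)]
      ring
    rw [hv, smul_eq_mul] at hle
    refine (le_abs_self _).trans (hle.trans (le_of_eq ?_))
    field_simp

end Pool.Agent.SIU.H20
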